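import Pool.Agent.helper25.PL.SpecA

/-!
# AJQ (project pl:, THEOREM P1, MP_70a088_an): outside the blocks near points lift linearly
-/

set_option autoImplicit false

open Complex Metric Set Filter Topology MeasureTheory
open Pool.Agent.helper98.ILF
open WP (it)
open HY (UD T S hd UN RM)
open PM

noncomputable section

namespace PL

theorem AJQ_itd (f : Polynomial ℂ) (k : ℕ) : Differentiable ℂ (it f k) := by
  induction k with
  | zero => exact differentiable_id
  | succ k ih =>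
    have h : it f (k + 1) = fun z => f.eval (it f k z) := by
      funext z
      exact Function.iterate_succ_apply' _ _ _
    rw [h]
    exact f.differentiable.comp ih

theorem AJQ (hABA : ABA_stmt) (hPBG : PBG_stmt) (hTDF : TDF_stmt) (hVFC : VFC_stmt) (hVKF : VKF_stmt)
    (hVCF : VCF_stmt) : AJQ_stmt := by
  intro f R δ e₀ d₀ k₀ hST K κ δL cL b₀ δ₁ δ₂ hPR
  have hc0 : 0 < cL * δ₂ := mul_pos hPR.c0 hPR.d0
  obtain ⟨r₀, hr₀, hr₀1, hbr⟩ := hPBG (min (cL * δ₂) 1) (lt_min hc0 one_pos) (min_le_right _ _)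
  refine ⟨1 / r₀, by rw [le_div_iff₀ hr₀]; linarith, ?_⟩
  intro k t p hSQ T hT hBK c hc
  have hER : ER f R := ⟨hST.R1, hST.esc⟩
  have hpd : pd (VC f R k (it f T p)) (it f T p) c < r₀ := by
    rw [one_div, inv_mul_lt_iff₀ hr₀, mul_one] at hc
    exact hc
  have hpW : p ∈ VK f R (k + T) := hST.Jv p hSQ.mem _
  have hpV : it f T p ∈ VK f R k := ((hVKF f R hST.deg hER).2.2.2.2.1 k T p).mp hpW
  obtain ⟨hDW, hpW', -⟩ := hVCF f R hST.deg hER (k + T) p hpW
  obtain ⟨hDV, hpV', -⟩ := hVCF f R hST.deg hER k (it f T p) hpV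
  obtain ⟨hFd, hFm, hF0, hFe, -⟩ := hVFC f R hST.deg hER k T p hpW (it f T p) hpV'
  obtain ⟨-, -, hTW⟩ := hTDF _ hDW
  obtain ⟨hRW, hcrW, -, -, -, hxW, hyW⟩ := hTW p hpW'
  obtain ⟨-, -, hTV⟩ := hTDF _ hDV
  obtain ⟨hRV, hcrV, hcxV, -, -, hxV, hyV⟩ := hTV (it f T p) hpV'
  have hhv := (hABA f R δ e₀ d₀ k₀ hST K κ δL cL b₀ δ₁ δ₂ hPR k t p hSQ).2.2.2 T hT hBK
  have h0m : (0 : ℂ) ∈ UD := mem_ball_self one_pos
  have hF00 : FC f R k T p (it f T p) 0 = 0 := by rw [hF0, hcxV]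
  set F : ℂ → ℂ := FC f R k T p (it f T p) with hFdef
  set W := VC f R (k + T) p with hW
  set V := VC f R k (it f T p) with hV
  have hFdd : deriv (rm V (it f T p)) 0 * deriv F 0 = deriv (it f T) p * deriv (rm W p) 0 := by
    have e1 : HasDerivAt F (deriv F 0) 0 := (hFd.differentiableAt (isOpen_ball.mem_nhds h0m)).hasDerivAt
    have e2 : HasDerivAt (rm V (it f T p)) (deriv (rm V (it f T p)) 0) (F 0) := by
      rw [hF00]
      exact (hRV.dif.differentiableAt (isOpen_ball.mem_nhds h0m)).hasDerivAt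
    have e3 : HasDerivAt (rm W p) (deriv (rm W p) 0) 0 :=
      (hRW.dif.differentiableAt (isOpen_ball.mem_nhds h0m)).hasDerivAt
    have e4 : HasDerivAt (it f T) (deriv (it f T) p) (rm W p 0) := by
      rw [hRW.val]
      exact (AJQ_itd f T p).hasDerivAt
    have e5 := e2.comp 0 e1
    have e6 := e4.comp 0 e3
    have e7 : (fun x => rm V (it f T p) (F x)) =ᶠ[𝓝 0] (fun x => it f T (rm W p x)) := by
      filter_upwards [isOpen_ball.mem_nhds h0m] with x hx
      exact hFe x hx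
    exact (e6.congr_of_eventuallyEq e7).unique e5 |>.symm
  have hFn : ‖deriv F 0‖ = hv f R k p T := by
    have h1 : cr V (it f T p) * ‖deriv F 0‖ = ‖deriv (it f T) p‖ * cr W p := by
      have := congrArg norm hFdd
      rw [norm_mul, norm_mul] at this
      exact this
    show ‖deriv F 0‖ = hdf (it f T) W V p
    unfold hdf
    rw [eq_div_iff hcrV.ne', ← h1, mul_comm]
  obtain ⟨H, hH, hH0, hHx⟩ := hbr F hFd hFm hF00 (by rw [hFn]; exact (min_le_left _ _).trans hhv)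
  have hcV : c ∈ V := by
    by_contra hcon
    have : pd V (it f T p) c = 1 := by
      unfold pd
      rw [if_neg]
      exact fun h => hcon h.2
    rw [this] at hpd
    linarith
  obtain ⟨hcu, hcr, hcp, -⟩ := hxV c hcV
  set y : ℂ := cx V (it f T p) c with hy
  have hyn : ‖y‖ < r₀ := by rw [← hcp]; exact hpd
  have hr₀c : (r₀ : ℂ) ≠ 0 := by
    rw [Ne, Complex.ofReal_eq_zero]
    exact hr₀.ne'
  have hyd : y / r₀ ∈ UD := by
    refine mem_ball_zero_iff.mpr ?_
    rw [norm_div, Complex.norm_of_nonneg hr₀.le, div_lt_one hr₀]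
    exact hyn
  have hHm : H (y / r₀) ∈ UD := hH.map hyd
  obtain ⟨hq1, -, hq3, -⟩ := hyW (H (y / r₀)) hHm
  refine ⟨rm W p (H (y / r₀)), hq1, ?_, ?_⟩
  · rw [← hFe _ hHm, (hHx _ hyd).1, mul_div_cancel₀ _ hr₀c]
    exact hcr
  · rw [hq3, hcp]
    have h1 : ‖H (y / r₀)‖ ≤ ‖y / r₀‖ :=
      Complex.norm_le_norm_of_mapsTo_ball hH.dif (fun z hz => ball_subset_closedBall (hH.map hz)) hH0 (mem_ball_zero_iff.mp hyd)
    refine h1.trans (le_of_eq ?_)
    rw [norm_div, Complex.norm_of_nonneg hr₀.le]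
    ring

end PL
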